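import Pool.Agent.Lib.MP_cf17a0_co.Final

/-!
# The signed `q`-product: for every `k > 3`, only finitely many pairs `(n, a)` can be exceptional

For `k > 3` there is `A₀` such that all coefficients of
`f_{n,k,a}(q) = (1+q)^⌈k/2⌉ ∏_{v=1}^k (1 - (-q)^(a (n + v))) / (1 - (-q)^v)` are nonnegative whenever
`n k` is even, `a` is odd and `a (n + 1) ≥ A₀`.
-/

namespace Pool.Agent.Results.MP_cf17a0_co.CofiniteForEachK

open Finset Pool.Agent.SignedQ

theorem result : ∀ k : ℕ, 3 < k → ∃ A₀ : ℕ, ∀ n a : ℕ, Even (n * k) → Odd a → A₀ ≤ a * (n + 1) →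
    ∀ i : ℕ,
      0 ≤ (((1 + Polynomial.X : Polynomial ℚ) ^ ((k + 1) / 2) *
              ∏ v ∈ Finset.Icc 1 k, (1 - (-Polynomial.X : Polynomial ℚ) ^ (a * (n + v)))) /
            ∏ v ∈ Finset.Icc 1 k, (1 - (-Polynomial.X : Polynomial ℚ) ^ v)).coeff i := by
  intro k hk
  obtain ⟨A₀, h⟩ := main k (by omega)
  refine ⟨A₀, fun n a hnk ha hA i => ?_⟩
  have hicc : ∀ F : ℕ → Polynomial ℚ, ∏ v ∈ Finset.Icc 1 k, F v = ∏ v ∈ range k, F (v + 1) := by
    intro F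
    rw [range_eq_Ico, prod_Ico_add' F 0 k 1, zero_add]
    congr 1
  have hden : ∏ v ∈ Finset.Icc 1 k, (1 - (-Polynomial.X : Polynomial ℚ) ^ v) =
      poch (-Polynomial.X) k := by
    rw [hicc]; rfl
  have hnum : (1 + Polynomial.X : Polynomial ℚ) ^ ((k + 1) / 2) *
      ∏ v ∈ Finset.Icc 1 k, (1 - (-Polynomial.X : Polynomial ℚ) ^ (a * (n + v))) = num n k a := by
    rw [hicc]; rfl
  rw [hden, hnum]
  refine h n a hnk ha hA _ ?_ i
  obtain ⟨f, hf⟩ := den_dvd n k a ha.pos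
  have hne : poch (-Polynomial.X : Polynomial ℚ) k ≠ 0 :=
    poch_ne_zero _ (fun i => one_sub_ne _ (by omega)) k
  rw [hf, mul_div_cancel_left₀ _ hne, mul_comm]

end Pool.Agent.Results.MP_cf17a0_co.CofiniteForEachK
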